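import Pool.Agent.H201.AD.CurveMain

/-!
# Deciding infinitude of rational points on plane curves: boundedly many partial algorithms, most inputs

There are `(2 H + 1) ^ ((n + 1) ^ 2)` polynomials `f ∈ ℤ[x, y]` of degree at most `n` in each variable and
with coefficients in `[-H, H]`. Suppose that there are `k` algorithms (which need not halt always) such
that one of them decides correctly for most of these `f` whether `f = 0` has infinitely many rational
solutions, with at most `K(n) (H + 1) ^ ((n + 1) ^ 2 - g(n) (n + 1))` failures (it does not halt or gives the
wrong answer). Here `K` is any computable function, and `g` is any unbounded computable function, for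
instance `log log n`; it is enough if this holds for the pairs `(n, H)` in a decidable set in which there are
arbitrarily large `n` with arbitrarily large `g(n)` and with infinitely many `H`. Which of the `k` algorithms
is the good one may depend on `n` and `H` in an arbitrary, non-computable way. Then there is an algorithm
which decides this for all polynomials `f`, that is, the answer to Q1 is yes.

The reason: `f` has the same rational zeros as `f h` for all polynomials `h` which have no rational zeros.
The polynomials `h = ∑ c i j x ^ i y ^ j + (9 M + 1) ∑ x ^ (2 i) y ^ (2 j)` of degree `2 e` in each variable,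
with coefficients `c i j` in `[0, M]`, are positive; if `f` is fixed and `g(n)` is large, there are much more
of the products `f h` than failures. A majority vote among them gives for every stage a list of `k`
candidates for the answers, which need not halt, one of which is right for all small inputs. The final
step, the decision of a problem from such lists, is taken from the library.
-/

set_option autoImplicit false

namespace Pool.Agent.Results.MP_d6ddbd_nt.BoundedAdviceFewFailures

/-- the polynomial `∑ L[i][j] x ^ i y ^ j`, given as a list of coefficient lists, has infinitely many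
rational zeros (this is the predicate of the frozen statement) -/
def InfinitelyMany (L : List (List ℤ)) : Prop :=
  Set.Infinite {p : ℚ × ℚ |
    ∑ i ∈ Finset.range L.length,
      ∑ j ∈ Finset.range (L.getD i []).length,
        (((L.getD i []).getD j 0 : ℤ) : ℚ) * p.1 ^ i * p.2 ^ j = 0}

/-- the polynomials of degree at most `n` in each variable with coefficients in `[-H, H]` -/
def Box (n H : ℕ) : Set (List (List ℤ)) :=
  {L | ∃ c : ℕ → ℕ → ℤ, (∀ i j, (c i j).natAbs ≤ H) ∧
    L = (List.range (n + 1)).map fun i => (List.range (n + 1)).map fun j => c i j}

/-- the failures of the algorithm `A` in `Box n H`: it does not halt or gives the wrong answer -/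
def Failures (A : List (List ℤ) →. Bool) (n H : ℕ) : Set (List (List ℤ)) :=
  {L | L ∈ Box n H ∧ ¬ ∃ b ∈ A L, (b = true ↔ InfinitelyMany L)}

/-- The problem Q1 is decidable if and only if there are a number `k`, partial computable functions
`A (0, ·), …, A (k - 1, ·)`, computable functions `K`, `g` and a decidable set `r` of pairs `(n, H)`, with
arbitrarily large `n` and `g n` such that `r` contains `(n, H)` for infinitely many `H`, such that for all
`(n, H)` in `r` there is `i < k` for which `A (i, ·)` has at most
`K n (H + 1) ^ ((n + 1) ^ 2 - g n (n + 1))` failures in `Box n H`. -/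
theorem result : ComputablePred InfinitelyMany ↔
    ∃ (k : ℕ) (A : ℕ × List (List ℤ) →. Bool) (K g : ℕ → ℕ) (r : ℕ × ℕ → Bool),
      Partrec A ∧ Computable K ∧ Computable g ∧ Computable r ∧
      (∀ m, ∃ n, m ≤ n ∧ m ≤ g n ∧ ∀ B, ∃ H ≥ B, r (n, H) = true) ∧
      ∀ n H : ℕ, r (n, H) = true → ∃ i < k, (Failures (fun L => A (i, L)) n H).encard ≤
        ((K n * (H + 1) ^ ((n + 1) ^ 2 - g n * (n + 1)) : ℕ) : ℕ∞) := by
  refine ⟨?_, ?_⟩
  · rintro ⟨inst, hc⟩
    refine ⟨1, fun x => Part.some (decide (InfinitelyMany x.2)), fun _ => 0, id, fun _ => true,
      Computable.partrec (hc.comp Computable.snd), Computable.const 0, Computable.id,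
      Computable.const true, fun m => ⟨m, le_rfl, le_rfl, fun B => ⟨B, le_rfl, rfl⟩⟩,
      fun n H _ => ⟨0, Nat.one_pos, ?_⟩⟩
    have h1 : Failures (fun L => Part.some (decide (InfinitelyMany L))) n H = ∅ := by
      ext p
      simp [Failures]
    rw [h1, Set.encard_empty]
    simp
  · rintro ⟨k, A, K, g, r, hA, hK, hg, hr, hdens, h⟩
    exact Pool.Agent.H201.AD.Poly2.advice k hA hK hg hr hdens h

end Pool.Agent.Results.MP_d6ddbd_nt.BoundedAdviceFewFailures
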