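import Pool.Agent.H447.QR.All

/-!
# Deciding infinitude (or existence) of rational points on the curves `y² = quartic (x)` is equivalent
to computing the ranks (or generators) of all elliptic curves over `ℚ`
-/

set_option autoImplicit false

open WeierstrassCurve

namespace Pool.Agent.Results.MP_d6ddbd_nt.QuarticsAndRanks

/-- the coefficients `(A, B, C, D, E)` of a binary quartic form -/
abbrev Coef : Type := ℤ × ℤ × ℤ × ℤ × ℤ

/-- the value `A x⁴ + B x³ z + C x² z² + D x z³ + E z⁴` -/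
def val (t : Coef) (x z : ℚ) : ℚ :=
  t.1 * x ^ 4 + t.2.1 * x ^ 3 * z + t.2.2.1 * x ^ 2 * z ^ 2 + t.2.2.2.1 * x * z ^ 3 +
    t.2.2.2.2 * z ^ 4

/-- the invariant `I = 12 A E - 3 B D + C²` -/
def invI (t : Coef) : ℤ := 12 * t.1 * t.2.2.2.2 - 3 * t.2.1 * t.2.2.2.1 + t.2.2.1 ^ 2

/-- the invariant `J = 72 A C E + 9 B C D - 27 A D² - 27 E B² - 2 C³` -/
def invJ (t : Coef) : ℤ :=
  72 * t.1 * t.2.2.1 * t.2.2.2.2 + 9 * t.2.1 * t.2.2.1 * t.2.2.2.1 - 27 * t.1 * t.2.2.2.1 ^ 2 -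
    27 * t.2.2.2.2 * t.2.1 ^ 2 - 2 * t.2.2.1 ^ 3

/-- nonzero discriminant -/
def Smooth (t : Coef) : Prop := 4 * invI t ^ 3 ≠ invJ t ^ 2

/-- nonzero discriminant, and `y² = A x⁴ + B x³ + C x² + D x + E` has infinitely many rational
solutions -/
def ManyPoints (t : Coef) : Prop :=
  Smooth t ∧ Set.Infinite {p : ℚ × ℚ | p.2 ^ 2 = val t p.1 1}

/-- nonzero discriminant, and the form represents the square of a rational number (nontrivially) -/
def HasPoint (t : Coef) : Prop :=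
  Smooth t ∧ ∃ x z y : ℚ, (x ≠ 0 ∨ z ≠ 0) ∧ y ^ 2 = val t x z

/-- `f = 0` has infinitely many rational solutions, `f` given as a list of coefficient lists. -/
def InfZ (L : List (List ℤ)) : Prop :=
  Set.Infinite {p : ℚ × ℚ | ∑ i ∈ Finset.range L.length,
    ∑ j ∈ Finset.range (L.getD i []).length,
      (((L.getD i []).getD j 0 : ℤ) : ℚ) * p.1 ^ i * p.2 ^ j = 0}

/-- the rational points of `y² = x³ + a x + b` -/
abbrev Pts (a b : ℤ) : Type := (⟨0, 0, 0, (a : ℚ), (b : ℚ)⟩ : WeierstrassCurve ℚ).toAffine.Point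

/-- the rank of `y² = x³ + a x + b`; `0` if the curve is singular -/
noncomputable def rk (c : ℤ × ℤ) : ℕ :=
  if 4 * c.1 ^ 3 + 27 * c.2 ^ 2 ≠ 0 then Module.finrank ℤ (Pts c.1 c.2) else 0

/-- there is an algorithm which computes for all integers `a, b` with `4 a³ + 27 b² ≠ 0` finitely many
points `(r / t², n / t³)` generating the group of rational points of `y² = x³ + a x + b` -/
def Generators : Prop :=
  ∃ f : ℤ × ℤ → List (ℤ × ℤ × ℤ), Computable f ∧ ∀ a b : ℤ, 4 * a ^ 3 + 27 * b ^ 2 ≠ 0 →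
    (∀ p ∈ f (a, b), p.2.2 ≠ 0 ∧
      p.2.1 ^ 2 = p.1 ^ 3 + a * p.1 * p.2.2 ^ 4 + b * p.2.2 ^ 6) ∧
    AddSubgroup.closure {P : Pts a b | ∃ p ∈ f (a, b), ∃ h, P =
      Affine.Point.some ((p.1 : ℚ) / (p.2.2 : ℚ) ^ 2) ((p.2.1 : ℚ) / (p.2.2 : ℚ) ^ 3) h} = ⊤

theorem many_eq (t : Coef) : ManyPoints t ↔ Pool.Agent.H447.QR.QInf t := Iff.rfl

theorem has_eq (t : Coef) : HasPoint t ↔ Pool.Agent.H447.QR.QSol t := Iff.rfl

theorem gen_eq : Generators ↔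
    Pool.Agent.H447.QR.AsmF.GenF (fun c => 4 * c.1 ^ 3 + 27 * c.2 ^ 2 ≠ 0) := by
  have key : ∀ (a b : ℤ) (l : List (ℤ × ℤ × ℤ)), 4 * a ^ 3 + 27 * b ^ 2 ≠ 0 →
      (∀ p ∈ l, Pool.Agent.H447.QR.OnC a b p) →
      {P : Pts a b | ∃ p ∈ l, ∃ h, P =
        Affine.Point.some ((p.1 : ℚ) / (p.2.2 : ℚ) ^ 2) ((p.2.1 : ℚ) / (p.2.2 : ℚ) ^ 3) h} =
      {P | ∃ p ∈ l, P = Pool.Agent.H447.QR.pt a b p} := by
    intro a b l hd hl
    ext P
    constructor
    · rintro ⟨p, hp, h, rfl⟩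
      obtain ⟨hn, e⟩ := Pool.Agent.H447.QR.AsmE.pt_some hd (hl p hp)
      exact ⟨p, hp, e.symm⟩
    · rintro ⟨p, hp, rfl⟩
      obtain ⟨hn, e⟩ := Pool.Agent.H447.QR.AsmE.pt_some hd (hl p hp)
      exact ⟨p, hp, hn, e⟩
  constructor
  · rintro ⟨f, hf, hg⟩
    refine ⟨f, hf, fun c hc => ?_⟩
    obtain ⟨h1, h2⟩ := hg c.1 c.2 hc
    refine ⟨h1, ?_⟩
    rw [← key c.1 c.2 (f c) hc h1]
    exact h2
  · rintro ⟨f, hf, hg⟩
    refine ⟨f, hf, fun a b hab => ?_⟩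
    obtain ⟨h1, h2⟩ := hg (a, b) hab
    refine ⟨h1, ?_⟩
    rw [key a b (f (a, b)) hab h1]
    exact h2

/-- **Main theorem.** -/
theorem result :
    (ComputablePred ManyPoints ↔ Computable rk) ∧ (ComputablePred HasPoint ↔ Computable rk) ∧
      (Generators ↔ Computable rk) ∧ (ComputablePred InfZ → Computable rk) := by
  have h := Pool.Agent.H447.QR.AsmD.main Pool.Agent.H447.QR.All.h1
  have h2 := Pool.Agent.H447.QR.AsmF.gen_iff Pool.Agent.H447.QR.All.h2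
  exact ⟨h.1, h.2.1, gen_eq.trans h2, h.2.2⟩

end Pool.Agent.Results.MP_d6ddbd_nt.QuarticsAndRanks
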